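import Mathlib

/-!
# A discrete poset without maximal elements and without constant rate distributions

Take the pairs `(n, j)` with `j ≤ n!`. The pairs `(n, 0)` form an increasing chain and each of the
`n!` pairs `(n, j)` with `j ≥ 1` is a minimal element covered by `(n, 0)` only. Adjoin a least
element. If `f = α F` with `F > 0`, then `α < 1` and each `(n, j)` has probability at least
`α (1 - α) ^ n F(0, 0)`, so that the total mass is infinite.
-/

set_option autoImplicit false

open scoped ENNReal

namespace Pool.Agent.Results.MP_5a8271_pr.FactorialLeaves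

/-- a standard discrete poset: nonempty, countable, all principal down-sets are finite -/
def StandardDiscrete (S : Type) [PartialOrder S] : Prop :=
  Nonempty S ∧ Countable S ∧ ∀ x : S, (Set.Iic x).Finite

/-- the upper probability function `F(x) = Pr(X ≽ x)` of a distribution on `S` -/
noncomputable def upf {S : Type} [PartialOrder S] (P : PMF S) (x : S) : ℝ≥0∞ :=
  P.toOuterMeasure (Set.Ici x)

/-- the distribution has constant rate `α`: `α > 0`, and `F > 0` and `f = α F` on all of `S` -/
def ConstantRate {S : Type} [PartialOrder S] (P : PMF S) (α : ℝ) : Prop :=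
  0 < α ∧ (∀ x : S, 0 < upf P x) ∧ ∀ x : S, P x = ENNReal.ofReal α * upf P x

/-- pairs `(n, j)` with `j ≤ n!` -/
def El : Type := {p : ℕ × ℕ // p.2 ≤ p.1.factorial}

/-- `(n, j) ≤ (m, k)` iff they are equal or `k = 0` and `n ≤ m` -/
instance instPO : PartialOrder El where
  le x y := x = y ∨ (y.1.2 = 0 ∧ x.1.1 ≤ y.1.1)
  le_refl x := Or.inl rfl
  le_trans := by
    rintro x y z (rfl | h) (rfl | h')
    · exact Or.inl rfl
    · exact Or.inr h'
    · exact Or.inr h
    · exact Or.inr ⟨h'.1, h.2.trans h'.2⟩
  le_antisymm := by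
    rintro x y (rfl | h) (h' | h')
    · rfl
    · rfl
    · exact h'.symm
    · exact Subtype.ext (Prod.ext (le_antisymm h.2 h'.2) (h'.1.trans h.1.symm))

theorem le_def (x y : El) : x ≤ y ↔ x = y ∨ (y.1.2 = 0 ∧ x.1.1 ≤ y.1.1) := Iff.rfl

instance instCountable : Countable El := by unfold El; infer_instance

/-- the element `(n, 0)` -/
def ch (n : ℕ) : El := ⟨(n, 0), Nat.zero_le _⟩

/-- the element `(n, j + 1)` -/
def lf (n : ℕ) (j : Fin n.factorial) : El := ⟨(n, (j : ℕ) + 1), j.2⟩

theorem finite_Iic (x : El) : (Set.Iic x).Finite := by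
  have h1 : (Set.Iic x) ⊆ (fun x : El => x.1) ⁻¹'
      ({x.1} ∪ (Set.Iic x.1.1 ×ˢ Set.Iic (x.1.1.factorial))) := by
    rintro y (rfl | h)
    · left; rfl
    · right
      exact ⟨h.2, y.2.trans (Nat.factorial_le h.2)⟩
  refine Set.Finite.subset (Set.Finite.preimage ?_ ?_) h1
  · exact Subtype.val_injective.injOn
  · exact (Set.finite_singleton _).union ((Set.finite_Iic _).prod (Set.finite_Iic _))

theorem standard : StandardDiscrete (WithBot El) := by
  refine ⟨inferInstance, inferInstanceAs (Countable (Option El)), fun x => ?_⟩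
  induction x with
  | bot => simp
  | coe x =>
    have : Set.Iic (x : WithBot El) ⊆ {⊥} ∪ (fun y : El => (y : WithBot El)) '' Set.Iic x := by
      intro y hy
      induction y with
      | bot => left; rfl
      | coe y => right; exact ⟨y, by simpa using hy, rfl⟩
    exact Set.Finite.subset ((Set.finite_singleton _).union ((finite_Iic x).image _)) this

theorem lt_ch (n : ℕ) : ch n < ch (n + 1) := by
  refine lt_of_le_of_ne (Or.inr ⟨rfl, Nat.le_succ n⟩) fun h => ?_
  have := congrArg (fun x : El => x.1.1) h
  simp [ch] at this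

theorem not_isMax (x : WithBot El) : ¬ IsMax x := by
  have key : ∀ x : El, ∃ y : El, x < y := fun x => by
    refine ⟨ch (x.1.1 + 1), lt_of_le_of_ne (Or.inr ⟨rfl, Nat.le_succ _⟩) fun h => ?_⟩
    have := congrArg (fun x : El => x.1.1) h
    simp [ch] at this
  induction x with
  | bot => exact fun h => (h.not_lt (WithBot.bot_lt_coe (ch 0)))
  | coe x =>
    obtain ⟨y, hy⟩ := key x
    exact fun h => h.not_lt (WithBot.coe_lt_coe.2 hy)

theorem chain_step (P : PMF (WithBot El)) (n : ℕ) :
    upf P (ch n : WithBot El) ≤ P (ch n : WithBot El) + upf P (ch (n + 1) : WithBot El) := by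
  have hs : Set.Ici (ch n : WithBot El) ⊆
      {(ch n : WithBot El)} ∪ Set.Ici (ch (n + 1) : WithBot El) := by
    intro y hy
    induction y with
    | bot => exact absurd hy (by simp)
    | coe y =>
      have hy' : ch n ≤ y := by simpa using hy
      rcases (le_def _ _).1 hy' with h | h
      · left; simp [h]
      · by_cases hn : y.1.1 = n
        · left
          have : y = ch n := Subtype.ext (Prod.ext hn h.1)
          simp [this]
        · right
          have h2 : n ≤ y.1.1 := h.2
          have : ch (n + 1) ≤ y := Or.inr ⟨h.1, by show n + 1 ≤ y.1.1; omega⟩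
          simpa using this
  calc upf P (ch n : WithBot El)
      ≤ P.toOuterMeasure ({(ch n : WithBot El)} ∪ Set.Ici (ch (n + 1) : WithBot El)) :=
        MeasureTheory.measure_mono hs
    _ ≤ P.toOuterMeasure {(ch n : WithBot El)} + _ := MeasureTheory.measure_union_le _ _
    _ = _ := by rw [PMF.toOuterMeasure_apply_singleton]; rfl

theorem leaf_ge (P : PMF (WithBot El)) (n : ℕ) (j : Fin n.factorial) :
    P (lf n j : WithBot El) + upf P (ch n : WithBot El) ≤ upf P (lf n j : WithBot El) := by
  unfold upf
  rw [PMF.toOuterMeasure_apply, PMF.toOuterMeasure_apply,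
    ← PMF.toOuterMeasure_apply_singleton P, PMF.toOuterMeasure_apply, ← ENNReal.tsum_add]
  refine ENNReal.tsum_le_tsum fun y => ?_
  by_cases h1 : y = (lf n j : WithBot El)
  · have h2 : y ∉ Set.Ici (ch n : WithBot El) := by
      rw [h1]
      intro h
      have h' : ch n ≤ lf n j := by simpa using h
      rcases (le_def _ _).1 h' with h3 | h3
      · have := congrArg (fun x : El => x.1.2) h3
        simp [ch, lf] at this
      · have := h3.1
        simp [lf] at this
    have h3 : y ∈ Set.Ici (lf n j : WithBot El) := by rw [h1]; exact Set.self_mem_Ici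
    rw [Set.indicator_of_mem (by simp [h1]), Set.indicator_of_notMem h2,
      Set.indicator_of_mem h3, add_zero]
  · rw [Set.indicator_of_notMem (by simpa using h1), zero_add]
    refine Set.indicator_le_indicator_of_subset ?_ (fun _ => zero_le) y
    refine Set.Ici_subset_Ici.2 ?_
    exact WithBot.coe_le_coe.2 (Or.inr ⟨rfl, le_rfl⟩)

/-- there is a standard discrete poset with a least element and no maximal element which admits no
distribution of constant rate -/
theorem result : ∃ (S : Type) (_ : PartialOrder S), StandardDiscrete S ∧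
    (∃ e : S, ∀ x : S, e ≤ x) ∧ (∀ x : S, ¬ IsMax x) ∧
    ¬ ∃ (P : PMF S) (α : ℝ), ConstantRate P α := by
  refine ⟨WithBot El, inferInstance, standard, ⟨⊥, fun x => bot_le⟩, not_isMax, ?_⟩
  rintro ⟨P, α, hα, hF, hf⟩
  have hfin : ∀ x, upf P x ≠ ∞ := fun x => by
    refine ne_top_of_le_ne_top ENNReal.one_ne_top ?_
    rw [← P.tsum_coe]
    unfold upf
    rw [PMF.toOuterMeasure_apply]
    exact ENNReal.tsum_le_tsum fun y => Set.indicator_le_self _ _ _
  have hPr : ∀ x, (P x).toReal = α * (upf P x).toReal := fun x => by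
    rw [hf, ENNReal.toReal_mul, ENNReal.toReal_ofReal hα.le]
  have hFr : ∀ x, 0 < (upf P x).toReal := fun x => ENNReal.toReal_pos (hF x).ne' (hfin x)
  set G : ℕ → ℝ := fun n => (upf P (ch n : WithBot El)).toReal with hG
  have hleaf : ∀ n j, (P (lf n j : WithBot El)).toReal + G n
      ≤ (upf P (lf n j : WithBot El)).toReal := fun n j => by
    rw [hG, ← ENNReal.toReal_add (PMF.apply_ne_top _ _) (hfin _)]
    exact ENNReal.toReal_mono (hfin _) (leaf_ge P n j)
  have hα1 : α < 1 := by
    have h1 := hleaf 1 ⟨0, by simp⟩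
    have h2 := hFr (ch 1)
    rw [hPr] at h1
    have h3 := hFr (lf 1 ⟨0, by simp⟩ : El)
    by_contra hc
    push Not at hc
    simp only [hG] at h1
    nlinarith
  have hstep : ∀ n, (1 - α) * G n ≤ G (n + 1) := fun n => by
    have h1 := ENNReal.toReal_mono (ENNReal.add_ne_top.2 ⟨PMF.apply_ne_top _ _, hfin _⟩)
      (chain_step P n)
    rw [ENNReal.toReal_add (PMF.apply_ne_top _ _) (hfin _), hPr] at h1
    simp only [hG]
    linarith
  have hpow : ∀ n, (1 - α) ^ n * G 0 ≤ G n := fun n => by
    induction n with
    | zero => simp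
    | succ n ih =>
      have := hstep n
      rw [pow_succ]
      nlinarith
  have hsum : ∀ n : ℕ, (n.factorial : ℝ) * (α * G n) ≤ 1 := fun n => by
    have h1 : ∑' j : Fin n.factorial, P (lf n j : WithBot El) ≤ 1 := by
      rw [← P.tsum_coe]
      refine ENNReal.tsum_comp_le_tsum_of_injective (f := fun j => (lf n j : WithBot El)) ?_ P
      intro i j h
      have h' : lf n i = lf n j := WithBot.coe_injective h
      have := congrArg (fun x : El => x.1.2) h'
      exact Fin.ext (by simpa [lf] using this)
    rw [tsum_fintype] at h1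
    have h2 := ENNReal.toReal_mono ENNReal.one_ne_top h1
    rw [ENNReal.toReal_sum (fun j _ => PMF.apply_ne_top _ _), ENNReal.toReal_one] at h2
    refine le_trans ?_ h2
    have h3 : ∀ j ∈ (Finset.univ : Finset (Fin n.factorial)),
        α * G n ≤ (P (lf n j : WithBot El)).toReal := fun j _ => by
      rw [hPr]
      have := hleaf n j
      have h4 : 0 ≤ (P (lf n j : WithBot El)).toReal := ENNReal.toReal_nonneg
      nlinarith
    have := Finset.card_nsmul_le_sum _ _ _ h3
    simpa using this
  have h1α : 0 < 1 - α := by linarith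
  have hlim := FloorSemiring.tendsto_pow_div_factorial_atTop (1 / (1 - α))
  have hG0 : 0 < α * G 0 := mul_pos hα (hFr _)
  obtain ⟨n, hn⟩ := ((hlim.eventually (gt_mem_nhds hG0))).exists
  have h5 := hsum n
  have h6 := hpow n
  have hfac : (0 : ℝ) < n.factorial := by exact_mod_cast n.factorial_pos
  rw [div_lt_iff₀ hfac, one_div, inv_pow] at hn
  have h7 : (n.factorial : ℝ) * (α * ((1 - α) ^ n * G 0)) ≤ 1 :=
    le_trans (by gcongr) h5
  have h8 : 0 < (1 - α) ^ n := pow_pos h1α n
  have h9 : ((1 - α) ^ n)⁻¹ * (1 - α) ^ n = 1 := inv_mul_cancel₀ h8.ne'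
  nlinarith

end Pool.Agent.Results.MP_5a8271_pr.FactorialLeaves
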